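import Pool.Agent.Lib.MP_524519_ag.DU5.REG.Coef

/-! # LE: the two descriptions of `E` -/

set_option autoImplicit false
set_option linter.unusedSectionVars false

namespace Pool.Agent.DU5.LE

open MvPowerSeries REG

variable {k F : Type} [Field k] [Field F] [Algebra k F]

/-- The point `(x_1, x_0)`. -/
noncomputable def qt (F : Type) [Field F] : Fin 2 → O F 3 := ![(X 1 : O F 3), X 0]

theorem qt_const (i : Fin 2) : constantCoeff (qt F i) = 0 := by
  fin_cases i <;> simp [qt]

theorem hqt : HasSubst (qt F) := hasSubst_of_constantCoeff_zero qt_const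

/-- The map `F⟦x, y⟧ → F⟦x_0, x_1, x_2⟧`, `x ↦ x_1`, `y ↦ x_0`. -/
noncomputable def tau (F : Type) [Field F] : PC.R2 F →ₐ[F] O F 3 := substAlgHom (hqt (F := F))

theorem tau_apply (g : PC.R2 F) : tau F g = MvPowerSeries.subst (qt F) g := by
  rw [tau, coe_substAlgHom]

theorem prod_qt (d : Fin 2 →₀ ℕ) :
    (d.prod fun s e => (qt F s) ^ e) = monomial (e3 (d 1) (d 0) 0) (1 : F) := by
  rw [Finsupp.prod_fintype _ _ (fun i => pow_zero _), Fin.prod_univ_two]
  have h0 : qt F 0 = X 1 := rfl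
  have h1 : qt F 1 = X 0 := rfl
  rw [h0, h1, X_pow_eq, X_pow_eq, monomial_mul_monomial]
  congr 1
  · congr 1
    apply ext3 <;> simp
  · ring

theorem coeff_tau (g : PC.R2 F) (e : Fin 3 →₀ ℕ) :
    coeff e (tau F g) = if e 2 = 0 then
      coeff (Finsupp.single 0 (e 1) + Finsupp.single 1 (e 0)) g else 0 := by
  classical
  rw [tau_apply, coeff_subst hqt]
  split_ifs with h
  · rw [finsum_eq_single _ (Finsupp.single 0 (e 1) + Finsupp.single 1 (e 0) : Fin 2 →₀ ℕ)]
    · rw [prod_qt, coeff_monomial, if_pos, smul_eq_mul, mul_one]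
      apply ext3 <;> simp [h]
    · intro d hd
      rw [prod_qt, coeff_monomial, if_neg, smul_zero]
      intro h'
      apply hd
      rw [h']
      apply ext2 <;> simp
  · apply finsum_eq_zero_of_forall_eq_zero
    intro d
    rw [prod_qt, coeff_monomial, if_neg, smul_zero]
    intro h'
    apply h
    rw [h']
    simp

theorem coeff_X2_succ (q : O F 3) (a b c : ℕ) :
    coeff (e3 a b (c + 1)) (X 2 * q) = coeff (e3 a b c) q := by
  have h : e3 a b (c + 1) = Finsupp.single 2 1 + e3 a b c := by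
    apply ext3 <;> simp [add_comm]
  rw [h, X_def, coeff_add_monomial_mul, one_mul]

theorem coeff_X2_zero (q : O F 3) (a b : ℕ) : coeff (e3 a b 0) (X 2 * q) = 0 :=
  X_dvd_iff.mp (dvd_mul_right _ _) _ (by simp)

theorem coeff_X1_succ (q : O F 3) (a b c : ℕ) :
    coeff (e3 a (b + 1) c) (X 1 * q) = coeff (e3 a b c) q := by
  have h : e3 a (b + 1) c = Finsupp.single 1 1 + e3 a b c := by
    apply ext3 <;> simp [add_comm]
  rw [h, X_def, coeff_add_monomial_mul, one_mul]

theorem coeff_X1_zero (q : O F 3) (a c : ℕ) : coeff (e3 a 0 c) (X 1 * q) = 0 :=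
  X_dvd_iff.mp (dvd_mul_right _ _) _ (by simp)

/-- Division by `x_2 - lam x_1`. -/
theorem divis (lam : F) (h : O k 3) :
    ∃ q : O F 3, bc k F h = tau F (rs lam h) + (X 2 - C lam * X 1) * q := by
  classical
  let q : O F 3 := fun e => ∑ t ∈ Finset.range (e 1 + 1),
    algebraMap k F (coeff (e3 (e 0) (e 1 - t) (e 2 + 1 + t)) h) * lam ^ t
  have hq : ∀ a b c, coeff (e3 a b c) q = ∑ t ∈ Finset.range (b + 1),
      algebraMap k F (coeff (e3 a (b - t) (c + 1 + t)) h) * lam ^ t := by
    intro a b c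
    show (∑ t ∈ Finset.range (e3 a b c 1 + 1), algebraMap k F (coeff (e3 (e3 a b c 0)
      (e3 a b c 1 - t) (e3 a b c 2 + 1 + t)) h) * lam ^ t) = _
    rw [e3_0, e3_1, e3_2]
  have hcf : ∀ e, coeff e (bc k F h) = algebraMap k F (coeff e h) := fun e => rfl
  refine ⟨q, ?_⟩
  ext e
  rw [← e3_eta e]
  generalize e 0 = a
  generalize e 1 = b
  generalize e 2 = c
  rw [hcf, map_add, coeff_tau, e3_0, e3_1, e3_2, sub_mul, map_sub, mul_assoc, coeff_C_mul]
  -- the sum for `lam * q_(a, b-1, c)`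
  have hsum : lam * coeff (e3 a b c) (X 1 * q) = (∑ t ∈ Finset.range (b + 1),
      algebraMap k F (coeff (e3 a (b - t) (c + t)) h) * lam ^ t) -
      algebraMap k F (coeff (e3 a b c) h) := by
    rw [Finset.sum_range_succ']
    simp only [Nat.sub_zero, add_zero, pow_zero, mul_one, add_sub_cancel_right]
    cases b with
    | zero => rw [coeff_X1_zero]; simp
    | succ b =>
      rw [coeff_X1_succ, hq, Finset.mul_sum]
      refine Finset.sum_congr rfl fun t _ => ?_
      rw [Nat.add_sub_add_right, show c + 1 + t = c + (t + 1) by ring]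
      ring
  rw [hsum]
  cases c with
  | zero =>
    rw [if_pos rfl, coeff_X2_zero, coeff_rs]
    have h1 : (Finsupp.single 0 b + Finsupp.single 1 a : Fin 2 →₀ ℕ) 0 = b := by simp
    have h2 : (Finsupp.single 0 b + Finsupp.single 1 a : Fin 2 →₀ ℕ) 1 = a := by simp
    rw [h1, h2]
    simp only [zero_add]
    ring
  | succ c =>
    rw [if_neg (Nat.succ_ne_zero c), coeff_X2_succ, hq]
    ring

/-- The derivative in `y` of the restriction. -/
theorem pderiv_rs (lam : F) (f : O k 3) : pderiv F 1 (rs lam f) = rs lam (pderiv k 0 f) := by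
  rw [rs_eq, SM.chain_mv (pt lam) (pt_const lam) f 1, Fin.sum_univ_three]
  have h0 : pt lam 0 = X 1 := rfl
  have h1 : pt lam 1 = X 0 := rfl
  have h2 : pt lam 2 = C lam * X 0 := rfl
  have h3 : pderiv F 1 (X 1 : PC.R2 F) = 1 := by simp
  have h4 : pderiv F 1 (X 0 : PC.R2 F) = 0 := by simp
  have h5 : pderiv F 1 (C lam * X 0 : PC.R2 F) = 0 := by
    rw [← smul_eq_C_mul, Derivation.map_smul, h4, smul_zero]
  rw [h0, h1, h2, h3, h4, h5, rs_eq]
  ring

theorem bc_self (h : O F 3) : bc F F h = h := by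
  ext e
  rfl

/-- **LE.** -/
theorem le : LEStatement := by
  intro k _ F _ _ lam d f _ _
  set I : Ideal (O F 3) :=
    Ideal.span {bc k F f, X 2 - C lam * X 1, bc k F (pderiv k 0 f)} with hI
  have hf : bc k F f ∈ I := Ideal.subset_span (by simp)
  have hf0 : bc k F (pderiv k 0 f) ∈ I := Ideal.subset_span (by simp)
  have h21 : (X 2 - C lam * X 1 : O F 3) ∈ I := Ideal.subset_span (by simp)
  have hle : Ideal.span {rs lam f, pderiv F 1 (rs lam f)} ≤ I.comap (tau F) := by
    rw [Ideal.span_le]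
    intro g hg
    rw [Set.mem_insert_iff, Set.mem_singleton_iff] at hg
    rw [SetLike.mem_coe, Ideal.mem_comap]
    rcases hg with rfl | rfl
    · obtain ⟨q, hq⟩ := divis lam f
      have : tau F (rs lam f) = bc k F f - (X 2 - C lam * X 1) * q := by rw [hq]; ring
      rw [this]
      exact I.sub_mem hf (I.mul_mem_right _ h21)
    · obtain ⟨q, hq⟩ := divis lam (pderiv k 0 f)
      have : tau F (rs lam (pderiv k 0 f)) =
          bc k F (pderiv k 0 f) - (X 2 - C lam * X 1) * q := by rw [hq]; ring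
      rw [pderiv_rs, this]
      exact I.sub_mem hf0 (I.mul_mem_right _ h21)
  let φ : (PC.R2 F ⧸ Ideal.span {rs lam f, pderiv F 1 (rs lam f)}) →ₐ[F] (O F 3 ⧸ I) :=
    Ideal.quotientMapₐ I (tau F) hle
  have hφ : Function.Surjective φ := by
    intro r
    obtain ⟨r, rfl⟩ := Ideal.Quotient.mk_surjective r
    refine ⟨Ideal.Quotient.mk _ (rs lam r), ?_⟩
    show Ideal.Quotient.mk I (tau F (rs lam r)) = _
    rw [Ideal.Quotient.eq]
    obtain ⟨q, hq⟩ := divis (k := F) lam r
    rw [bc_self] at hq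
    have : tau F (rs lam r) - r = - ((X 2 - C lam * X 1) * q) := by
      nth_rewrite 2 [hq]; ring
    rw [this]
    exact I.neg_mem (I.mul_mem_right _ h21)
  exact Module.length_le_of_surjective φ.toLinearMap hφ

end Pool.Agent.DU5.LE
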